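import Pool.Agent.H37.CNM.Stmts

set_option autoImplicit false

namespace Pool.CND

namespace ALPaux

open Subgroup
open scoped commutatorElement

/-- in a nilpotent group, a normal subgroup `D ≥ A` with `D ≤ [D,G] A` equals `A` -/
lemma nilp {G : Type} [Group G] [Group.IsNilpotent G] (A D : Subgroup G) (hA : A.Normal)
    (hD : D.Normal) (h : D ≤ ⁅D, (⊤ : Subgroup G)⁆ ⊔ A) : D ≤ A := by
  obtain ⟨n, hn⟩ := (Subgroup.nilpotent_iff_lowerCentralSeries (G := G)).1 inferInstance
  have key : ∀ m : ℕ, D ≤ (⊤ : Subgroup G).lowerCentralSeries m ⊔ A := by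
    intro m
    induction m with
    | zero => rw [Subgroup.lowerCentralSeries_zero]; exact le_top.trans le_sup_left
    | succ m ih =>
      refine h.trans (sup_le ?_ le_sup_right)
      rw [Subgroup.commutator_le]
      intro y hy g _
      have hy' := ih hy
      rw [Subgroup.mem_sup_of_normal_right] at hy'
      obtain ⟨a, ha, b, hb, rfl⟩ := hy'
      have e : ⁅a * b, g⁆ = (a * ⁅b, g⁆ * a⁻¹) * ⁅a, g⁆ := by
        simp only [commutatorElement_def]
        group
      rw [e]
      refine ((⊤ : Subgroup G).lowerCentralSeries (m + 1) ⊔ A).mul_mem ?_ ?_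
      · apply Subgroup.mem_sup_right
        apply hA.conj_mem
        have : ⁅b, g⁆ = b * (g * b⁻¹ * g⁻¹) := by
          simp only [commutatorElement_def]
          group
        rw [this]
        exact A.mul_mem hb (hA.conj_mem _ (A.inv_mem hb) g)
      · apply Subgroup.mem_sup_left
        exact Subgroup.commutator_mem_commutator ha (Subgroup.mem_top g)
  have := key n
  rw [hn, bot_sup_eq] at this
  exact this

end ALPaux

open ALPaux Subgroup in
open scoped commutatorElement in
theorem alp_thm (hAPB : S_APB) : S_ALP := by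
  classical
  intro p G _ _ A hp hp2 hcard hA x0 hx0 hx0p
  by_contra hxA0
  obtain ⟨hAn, hAE, hAmax⟩ := hA
  have : Fact p.Prime := ⟨hp⟩
  obtain ⟨n, hn⟩ := hcard
  have hpG : IsPGroup p G := IsPGroup.of_card hn
  have hnil : Group.IsNilpotent G := hpG.isNilpotent
  -- the family
  let fam : Set (Subgroup G) := {D | D.Normal ∧ A ≤ D ∧ D ≤ Subgroup.centralizer (A : Set G) ∧
    ∃ x ∈ D, x ∉ A ∧ x ^ p = 1}
  have hne : fam.Nonempty := by
    refine ⟨Subgroup.centralizer (A : Set G), ?_, ?_, le_rfl, x0, ?_, hxA0, hx0p⟩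
    · infer_instance
    · intro a ha
      rw [Subgroup.mem_centralizer_iff]
      intro b hb
      exact hAE.2 b hb a ha
    · rw [Subgroup.mem_centralizer_iff]
      intro b hb
      exact (hx0 b hb).symm
  obtain ⟨D, hDf, hDmin⟩ := Set.exists_min_image fam (fun D => Nat.card D) (Set.toFinite _) hne
  obtain ⟨hDn, hAD, hDC, x, hxD, hxA, hxp⟩ := hDf
  let E : Subgroup G := ⁅D, (⊤ : Subgroup G)⁆ ⊔ A
  have hEn : E.Normal := Subgroup.sup_normal _ _
  have hED : E ≤ D := by
    refine sup_le ?_ hAD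
    rw [Subgroup.commutator_le]
    intro y hy g _
    have : ⁅y, g⁆ = y * (g * y⁻¹ * g⁻¹) := by
      simp only [commutatorElement_def]
      group
    rw [this]
    exact D.mul_mem hy (hDn.conj_mem _ (D.inv_mem hy) g)
  have hEA : ∀ y ∈ E, y ^ p = 1 → y ∈ A := by
    intro y hy hyp
    by_contra hyA
    have h1 := hDmin E ⟨hEn, le_sup_right, hED.trans hDC, y, hy, hyA, hyp⟩
    have h2 : E = D := Subgroup.eq_of_le_of_card_ge hED h1
    have h3 : D ≤ A := nilp A D hAn hDn (le_of_eq h2.symm)
    exact hxA (h3 hxD)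
  -- the group `D`
  have hDcard : ∃ m : ℕ, Nat.card D = p ^ m := IsPGroup.iff_card.1 (hpG.to_subgroup D)
  have hs : ∀ g : G, x⁻¹ * (g * x * g⁻¹) ∈ A := by
    intro g
    have hsE : x⁻¹ * (g * x * g⁻¹) ∈ E := by
      apply Subgroup.mem_sup_left
      have : x⁻¹ * (g * x * g⁻¹) = ⁅x⁻¹, g⁆ := by
        simp only [commutatorElement_def]
        group
      rw [this]
      exact Subgroup.commutator_mem_commutator (D.inv_mem hxD) (Subgroup.mem_top g)
    apply hEA _ hsE
    have hEn' : (E.subgroupOf D).Normal := inferInstance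
    have h1 := hAPB p D (E.subgroupOf D) hp hp2 hDcard hEn' (by
      rintro ⟨y, hyD⟩ hy hyp
      rw [Subgroup.mem_subgroupOf] at hy
      have hy1 : y ^ p = 1 := congrArg Subtype.val hyp
      have hyA := hEA y hy hy1
      rw [Subgroup.mem_center_iff]
      rintro ⟨z, hzD⟩
      apply Subtype.ext
      have h2 := hDC hzD
      rw [Subgroup.mem_centralizer_iff] at h2
      exact (h2 y hyA).symm) ⟨x, hxD⟩ ⟨x⁻¹ * (g * x * g⁻¹), hED hsE⟩
      (by rw [Subgroup.mem_subgroupOf]; exact hsE)
      (Subtype.ext hxp) (by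
        apply Subtype.ext
        change (x * (x⁻¹ * (g * x * g⁻¹))) ^ p = 1
        have : x * (x⁻¹ * (g * x * g⁻¹)) = g * x * g⁻¹ := by group
        rw [this, conj_pow, hxp]
        group)
    exact congrArg Subtype.val h1
  have hxC : ∀ a ∈ A, a * x = x * a := by
    intro a ha
    have h2 := hDC hxD
    rw [Subgroup.mem_centralizer_iff] at h2
    exact h2 a ha
  -- the subgroup `A ⟨x⟩`
  let B : Subgroup G := A ⊔ Subgroup.zpowers x
  have hB : ∀ y, y ∈ B ↔ ∃ a ∈ A, ∃ k : ℤ, a * x ^ k = y := by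
    intro y
    constructor
    · intro hy
      rw [Subgroup.mem_sup_of_normal_left] at hy
      obtain ⟨a, ha, b, hb, rfl⟩ := hy
      obtain ⟨k, rfl⟩ := Subgroup.mem_zpowers_iff.1 hb
      exact ⟨a, ha, k, rfl⟩
    · rintro ⟨a, ha, k, rfl⟩
      exact B.mul_mem (Subgroup.mem_sup_left ha)
        (Subgroup.mem_sup_right (Subgroup.zpow_mem_zpowers x k))
  have hBn : B.Normal := by
    constructor
    intro y hy g
    obtain ⟨a, ha, k, rfl⟩ := (hB y).1 hy
    have e : g * (a * x ^ k) * g⁻¹ = (g * a * g⁻¹) * (g * x * g⁻¹) ^ k := by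
      rw [conj_zpow]
      group
    rw [e]
    refine B.mul_mem (Subgroup.mem_sup_left (hAn.conj_mem a ha g)) (B.zpow_mem ?_ k)
    have e2 : g * x * g⁻¹ = x * (x⁻¹ * (g * x * g⁻¹)) := by group
    rw [e2]
    exact B.mul_mem (Subgroup.mem_sup_right (Subgroup.mem_zpowers x))
      (Subgroup.mem_sup_left (hs g))
  have hBE : EA p B := by
    constructor
    · intro y hy
      obtain ⟨a, ha, k, rfl⟩ := (hB y).1 hy
      have hc : Commute a (x ^ k) := Commute.zpow_right (hxC a ha) k
      rw [hc.mul_pow, hAE.1 a ha, one_mul, ← zpow_natCast, zpow_comm, zpow_natCast, hxp, one_zpow]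
    · intro y hy z hz
      obtain ⟨a, ha, k, rfl⟩ := (hB y).1 hy
      obtain ⟨b, hb, l, rfl⟩ := (hB z).1 hz
      have c1 : Commute a b := hAE.2 a ha b hb
      have c2 : Commute a (x ^ l) := Commute.zpow_right (hxC a ha) l
      have c3 : Commute (x ^ k) b := (Commute.zpow_right (hxC b hb) k).symm
      have c4 : Commute (x ^ k) (x ^ l) := Commute.zpow_zpow_self x k l
      exact ((c1.mul_right c2).mul_left (c3.mul_right c4))
  have hBA : B = A := hAmax B hBn hBE le_sup_left
  apply hxA
  rw [← hBA]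
  exact Subgroup.mem_sup_right (Subgroup.mem_zpowers x)

end Pool.CND
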